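import Pool.Agent.Y63.NV.Main

/-!
# The induction, for classes of functions
-/

set_option autoImplicit false

open scoped Classical BigOperators

set_option linter.unusedSectionVars false

noncomputable section

namespace Pool.Agent.E8helper60.NP

open Pool.Agent.Y63.NV Pool.Agent.Y63.KR

/-- closure properties of a class of functions -/
structure ClosedE (p : ℕ) {F : Type} [Field F] (D : ∀ (Γ : Type) [Group Γ], (Γ → F) → Prop) :
    Prop where
  sub : ∀ (Γ : Type) [Group Γ] [Finite Γ] (z : Γ → F), D Γ z → ∀ H C : Subgroup Γ,
    D H (fun x : H => cut z C x)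
  quot : ∀ (Γ : Type) [Group Γ] [Finite Γ] (z : Γ → F), IsClassFun z → D Γ z →
    ∀ (M : Subgroup Γ) [M.Normal], IsPGroup p M → D (Γ ⧸ M) (push M z)

theorem induct' (P : Parts) {p : ℕ} [Fact p.Prime] {F : Type} [Field F] [IsAlgClosed F] [CharP F p]
    (red : integralClosure ℤ ℂ →+* F) (X : ∀ (G : Type) [Group G], Prop) (hX : Closed p X)
    (D : ∀ (Γ : Type) [Group Γ], (Γ → F) → Prop) (hD : ClosedE p D) (c : F)
    (base : ∀ (G : Type) [Group G] [Finite G], X G → ∀ z : G → F, IsClassFun z → D G z →
      Lsum (⊤ : Subgroup G) ⊤ z c = Wsum p red ⊤ ⊤ z c) :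
    ∀ (n : ℕ) (Γ : Type) [Group Γ] [Finite Γ] (G : Subgroup Γ) [G.Normal], Nat.card Γ ≤ n →
      X G → IsPGroup p (Γ ⧸ G) → ∀ z : Γ → F, InZ G z → D Γ z →
      Lsum G ⊤ z c = Wsum p red G ⊤ z c := by
  intro n
  induction n with
  | zero =>
    intro Γ _ _ G _ hn
    have := Nat.card_pos (α := Γ)
    omega
  | succ n ih =>
    intro Γ _ _ G hG hn hXG hp z hz hDz
    by_cases hG1 : G = ⊤
    · subst hG1
      exact base Γ (hX.iso _ _ hXG ⟨Subgroup.topEquiv⟩) z (fun g x => hz.conj g x) hDz
    by_cases hM : ∃ M : Subgroup Γ, M.Normal ∧ IsPGroup p M ∧ M ≠ ⊥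
    · obtain ⟨M, hMn, hMp, hM1⟩ := hM
      obtain ⟨h1, h2⟩ := P.lq p F Γ G M z hMp hz c
      have h3 := P.nq p F red Γ G M z hMp hz c
      rw [h2, h3]
      congr 1
      have hcard : Nat.card (Γ ⧸ M) ≤ n := by
        have e1 := Subgroup.card_eq_card_quotient_mul_card_subgroup M
        have e2 : 1 < Nat.card M := (Subgroup.one_lt_card_iff_ne_bot M).mpr hM1
        have e3 : 0 < Nat.card (Γ ⧸ M) := Nat.card_pos
        by_contra hlt
        push Not at hlt
        have : Nat.card (Γ ⧸ M) * 2 ≤ Nat.card Γ := by
          rw [e1]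
          exact Nat.mul_le_mul_left _ e2
        omega
      have hnor : (G.map (QuotientGroup.mk' M)).Normal :=
        Subgroup.Normal.map hG _ (QuotientGroup.mk'_surjective M)
      have hp' : IsPGroup p ((Γ ⧸ M) ⧸ (G.map (QuotientGroup.mk' M))) := by
        intro x
        obtain ⟨y, rfl⟩ := QuotientGroup.mk_surjective x
        obtain ⟨g, rfl⟩ := QuotientGroup.mk_surjective y
        obtain ⟨k, hk⟩ := pow_mem_of_pGroup hp g
        refine ⟨k, ?_⟩
        rw [← QuotientGroup.mk_pow, QuotientGroup.eq_one_iff, ← QuotientGroup.mk_pow]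
        exact ⟨_, hk, rfl⟩
      have hX' : X (G.map (QuotientGroup.mk' M)) := by
        set f : G →* Γ ⧸ M := (QuotientGroup.mk' M).comp G.subtype with hf
        have hker : IsPGroup p f.ker := by
          have : f.ker = M.subgroupOf G := by
            ext x
            rw [MonoidHom.mem_ker, Subgroup.mem_subgroupOf, hf, MonoidHom.comp_apply,
              QuotientGroup.mk'_apply, QuotientGroup.eq_one_iff]
            rfl
          rw [this]
          exact hMp.comap_subtype
        have h4 := hX.quot G hXG f.ker hker
        refine hX.iso _ _ h4 ⟨(QuotientGroup.quotientKerEquivRange f).trans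
          (MulEquiv.subgroupCongr ?_)⟩
        rw [hf, MonoidHom.range_comp, Subgroup.range_subtype]
      exact ih (Γ ⧸ M) (G.map (QuotientGroup.mk' M)) hcard hX' hp' (push M z) h1
        (hD.quot Γ z (fun g x => hz.conj g x) hDz M hMp)
    · have : Fintype {σ : Set (Subgroup Γ) // IsPChain p σ} := Fintype.ofFinite _
      have hsum := chain_sum P red hp hG1 hz c
      have hemp : IsPChain p (∅ : Set (Subgroup Γ)) :=
        ⟨Set.pairwise_empty _, fun P hP => absurd hP (Set.notMem_empty P),
          fun P hP => absurd hP (Set.notMem_empty P)⟩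
      rw [Finset.sum_eq_single (⟨∅, hemp⟩ : {σ : Set (Subgroup Γ) // IsPChain p σ})] at hsum
      · simp only [Set.ncard_empty, pow_zero, one_mul] at hsum
        rw [chainStabilizer_empty, chainCent_empty, cut_top] at hsum
        exact sub_eq_zero.mp hsum
      · intro σ _ hσ
        have hne : σ.1.Nonempty := by
          rw [Set.nonempty_iff_ne_empty]
          intro h
          exact hσ (Subtype.ext h)
        obtain ⟨Q, hQ⟩ := hne
        set H := chainStabilizer σ.1 with hH
        have hHtop : H ≠ ⊤ := by
          intro h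
          apply hM
          refine ⟨Q, ?_, σ.2.isPGroup Q hQ, σ.2.ne_bot Q hQ⟩
          rw [← Subgroup.normalizer_eq_top_iff, eq_top_iff]
          intro x _
          rw [← conjSub_eq_iff]
          have hx : x ∈ H := by rw [h]; trivial
          exact mem_chainStabilizer.mp hx Q hQ
        by_cases hGH : G ⊔ H = ⊤
        · have hcard : Nat.card H ≤ n := by
            have e1 : Nat.card H ≠ Nat.card Γ := by
              intro h
              exact hHtop ((Subgroup.card_eq_iff_eq_top H).mp h)
            have e2 := Subgroup.card_le_card_group H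
            omega
          have hnor : (G.subgroupOf H).Normal := inferInstance
          have hp' : IsPGroup p (H ⧸ G.subgroupOf H) := by
            intro x
            obtain ⟨g, rfl⟩ := QuotientGroup.mk_surjective x
            obtain ⟨k, hk⟩ := pow_mem_of_pGroup hp (g : Γ)
            refine ⟨k, ?_⟩
            rw [← QuotientGroup.mk_pow, QuotientGroup.eq_one_iff, Subgroup.mem_subgroupOf]
            exact hk
          have hX' : X (G.subgroupOf H) :=
            hX.iso _ _ (hX.sub G hXG (H.subgroupOf G)) (iso_subgroupOf G H)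
          have hz' : InZ (G.subgroupOf H) (fun x : H => cut z (chainCent σ.1) x) := by
            constructor
            · intro g x
              exact cut_inv hz.conj g.2 x
            · intro x hx
              have : (x : Γ) ∉ G := fun h => hx (Subgroup.mem_subgroupOf.mpr h)
              change cut z (chainCent σ.1) x = 0
              unfold cut
              rw [hz.supp _ this]
              split_ifs <;> rfl
          have h5 := ih H (G.subgroupOf H) hcard hX' hp' _ hz' (hD.sub Γ z hDz H _)
          have h6 := P.trl F Γ G H (cut z (chainCent σ.1)) c hGH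
          have h7 := P.trn p F red Γ G H (cut z (chainCent σ.1)) c hGH
            (fun h hh x => cut_inv hz.conj hh x)
          rw [h6, h7, h5, sub_self, mul_zero]
        · rw [lsum_zero hGH, wsum_zero red hGH, sub_self, mul_zero]
      · intro h
        exact absurd (Finset.mem_univ _) h

end Pool.Agent.E8helper60.NP
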