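import Pool.Agent.E8helper60.NP.StmB

/-!
# The identity of the weighted sums for quotients by `p`-groups
-/

set_option autoImplicit false

open scoped Classical

noncomputable section

namespace Pool.Agent.E8helper60.NP

open Pool.Agent.Y63.NV Pool.Agent.E8helper60.AW
open Pool.Agent.Y63.AWC (IsIrreducibleCharacter pSubgroupSetoid)

theorem lsum_top {F K : Type} [Field F] [Group K] [Finite K] (z : K → F) (c : F) :
    Lsum (⊤ : Subgroup K) ⊤ z c = Nat.card K * (Nat.card {φ : K → F // IsIrrTrace φ ∧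
      ∀ x, ∑ᶠ g : K, z g * φ (g * x) = c * φ x} : ℤ) := by
  unfold Lsum
  rw [if_pos (top_sup_eq _), top_inf_eq, B77.Lnum_top, Subgroup.card_top]
  congr 2
  exact Nat.card_congr
    { toFun := fun φ => ⟨φ.1.1, φ.1.2, φ.2⟩
      invFun := fun φ => ⟨⟨φ.1, φ.2.1⟩, φ.2.2⟩
      left_inv := fun _ => rfl
      right_inv := fun _ => rfl }

theorem lnum_equiv {F G H : Type} [Field F] [Group G] [Group H] (α : G ≃* H) (e : H → F) (c : F) :
    Nat.card {φ : G → F // IsIrrTrace φ ∧ ∀ x, ∑ᶠ g : G, e (α g) * φ (g * x) = c * φ x} =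
      Nat.card {φ : H → F // IsIrrTrace φ ∧ ∀ x, ∑ᶠ g : H, e g * φ (g * x) = c * φ x} := by
  symm
  refine Nat.card_congr
    { toFun := fun φ => ⟨fun x => φ.1 (α x), B77.irr_comp' α φ.2.1, fun x => ?_⟩
      invFun := fun φ => ⟨fun x => φ.1 (α.symm x), B77.irr_comp' α.symm φ.2.1, fun x => ?_⟩
      left_inv := fun φ => Subtype.ext (funext fun x => by simp)
      right_inv := fun φ => Subtype.ext (funext fun x => by simp) }
  · have h1 := φ.2.2 (α x)
    rw [← finsum_comp_equiv α.toEquiv] at h1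
    refine Eq.trans (finsum_congr fun g => ?_) h1
    change e (α g) * φ.1 (α (g * x)) = e (α g) * φ.1 (α g * α x)
    rw [map_mul]
  · have h1 := φ.2.2 (α.symm x)
    refine Eq.trans ?_ h1
    rw [← finsum_comp_equiv α.toEquiv]
    refine finsum_congr fun g => ?_
    change e (α g) * φ.1 (α.symm (α g * x)) = e (α g) * φ.1 (g * α.symm x)
    rw [map_mul, α.symm_apply_apply]

theorem trb : S_TRB := by
  intro p _ F _ _ _ red Δ H _ _ _ _ π z c hπ hk hz h
  obtain ⟨h1, h2⟩ := parts.lq p F Δ ⊤ π.ker z hk ⟨fun g x => hz g x, fun x hx =>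
    absurd (Subgroup.mem_top x) hx⟩ c
  have h3 := parts.nq p F red Δ ⊤ π.ker z hk ⟨fun g x => hz g x, fun x hx =>
    absurd (Subgroup.mem_top x) hx⟩ c
  have e1 : (⊤ : Subgroup Δ).map (QuotientGroup.mk' π.ker) = ⊤ :=
    Subgroup.map_top_of_surjective _ (QuotientGroup.mk'_surjective _)
  rw [e1] at h1 h2 h3
  rw [h2, h3] at h
  have hM : (Nat.card π.ker : ℤ) ≠ 0 := by
    exact_mod_cast (Nat.card_pos (α := π.ker)).ne'
  have h4 := mul_left_cancel₀ hM h
  set α : Δ ⧸ π.ker ≃* H := QuotientGroup.quotientKerEquivOfSurjective π hπ with hα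
  set z' : H → F := fun y => ∑ᶠ x : Δ, if π x = y then z x else 0 with hz'
  have h5 : push π.ker z = fun q => z' (α q) := by
    funext q
    obtain ⟨d, rfl⟩ := QuotientGroup.mk_surjective q
    unfold push
    simp only [hz']
    refine finsum_congr fun x => ?_
    have h6 : α (d : Δ ⧸ π.ker) = π d := rfl
    rw [h6]
    have h7 : ((x : Δ ⧸ π.ker) = (d : Δ ⧸ π.ker)) ↔ π x = π d := by
      rw [QuotientGroup.eq, MonoidHom.mem_ker, map_mul, map_inv, inv_mul_eq_one]
    by_cases h8 : π x = π d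
    · rw [if_pos h8, if_pos (h7.2 h8)]
    · rw [if_neg h8, if_neg fun h9 => h8 (h7.1 h9)]
  have h6 : IsClassFun z' := by
    intro g x
    obtain ⟨q, rfl⟩ := α.surjective g
    obtain ⟨r, rfl⟩ := α.surjective x
    rw [← map_inv, ← map_mul, ← map_mul]
    have h7 := h1.conj q r
    rw [h5] at h7
    exact h7
  rw [h5, wsum_top, lsum_top, lnum_equiv, wtot_equiv p red α z' c h6] at h4
  rw [wsum_top, lsum_top, ← h4, Nat.card_congr α.toEquiv]

end Pool.Agent.E8helper60.NP
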