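import Pool.Agent.E8helper60.NP.StmB

/-!
# Sums over subgroups and over classes
-/

set_option autoImplicit false

open scoped Classical

noncomputable section

namespace Pool.Agent.E8helper60.NP

open Pool.Agent.Y63.NV Pool.Agent.Y487.NV Pool.Agent.E8helper60.AW
open Pool.Agent.Y63.AWC (IsIrreducibleCharacter pSubgroupSetoid)

theorem wcl : S_WCL := by
  intro p _ F _ red Γ _ _ G _ z c hz
  have : Fintype (Subgroup Γ) := Fintype.ofFinite _
  rw [Pool.Agent.Y487.NV.wsum_eq]
  have h1 := Pool.Agent.Y286.NV.orbit_weights (Γ := Γ) p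
    (fun Q => if G ⊔ Q = ⊤ then
      Nw p red (Q.subgroupOf (Subgroup.normalizer (Q : Set Γ))) (fun x => z x) c else 0) (by
      intro g Q
      simp only [Pool.Agent.Y286.NV.sup_conj G g Q]
      by_cases h : G ⊔ Q = ⊤
      · rw [if_pos h, if_pos h]
        exact (Pool.Agent.Y63.NV.B48B.nw_conj p red hz c g Q).symm
      · rw [if_neg h, if_neg h])
  rw [← Nat.cast_mul, h1]
  congr 1
  have : Fintype {Q : Subgroup Γ // IsPGroup p Q} := Fintype.ofFinite _
  rw [finsum_eq_sum_of_fintype]
  have h2 : (∑ Q : Subgroup Γ, if IsPGroup p Q ∧ G ⊔ Q = ⊤ then wl p red z c Q else 0) =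
      ∑ Q ∈ Finset.univ.filter (fun Q : Subgroup Γ => IsPGroup p Q),
        (if G ⊔ Q = ⊤ then wl p red z c Q else 0) := by
    rw [Finset.sum_filter]
    refine Finset.sum_congr rfl fun Q _ => ?_
    by_cases h3 : IsPGroup p Q
    · simp only [h3, true_and, if_true]
    · simp only [h3, false_and, if_false]
  have h5 : (∑ Q ∈ Finset.univ.filter (fun Q : Subgroup Γ => IsPGroup p Q),
        (if G ⊔ Q = ⊤ then wl p red z c Q else 0)) =
      ∑ Q : {Q : Subgroup Γ // IsPGroup p Q}, Nat.card (Subgroup.normalizer (Q.1 : Set Γ)) *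
        (if G ⊔ Q.1 = ⊤ then
          Nw p red (Q.1.subgroupOf (Subgroup.normalizer (Q.1 : Set Γ))) (fun x => z x) c
        else 0) := by
    rw [Finset.sum_subtype (p := fun Q : Subgroup Γ => IsPGroup p Q)
      (Finset.univ.filter fun Q : Subgroup Γ => IsPGroup p Q) (by simp)
      (fun Q => if G ⊔ Q = ⊤ then wl p red z c Q else 0)]
    refine Finset.sum_congr rfl fun Q _ => ?_
    by_cases h3 : G ⊔ Q.1 = ⊤
    · rw [if_pos h3, if_pos h3]
      rfl
    · rw [if_neg h3, if_neg h3, mul_zero]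
  exact Eq.trans (Finset.sum_congr (by ext; simp) fun Q _ => rfl) (h2.trans h5)

end Pool.Agent.E8helper60.NP
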