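import Pool.Agent.E8helper60.NP.Cva
import Pool.Agent.E8helper60.NP.Trb
import Pool.Agent.E8helper60.NP.Wcl
import Pool.Agent.E8helper60.NP.Ind
import Pool.Agent.E8helper60.AW.Nav

/-!
# Navarro's equality for principal blocks: assembly
-/

set_option autoImplicit false
set_option linter.unusedSectionVars false

open scoped Classical

noncomputable section

namespace Pool.Agent.E8helper60.NP

open Pool.Agent.Y63.NV
open Pool.Agent.E8helper60.AW (numWt thSum th_top prin_tfae pow_class' one_le_cardG card_wr)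
open Pool.Agent.Y63.AWC (IsIrreducibleCharacter pSubgroupSetoid)

variable {F : Type} [Field F] {p : ℕ} [Fact p.Prime] [CharP F p]

/-- the right hand side -/
def rhs (p : ℕ) {F : Type} [Field F] (red : integralClosure ℤ ℂ →+* F) {Γ : Type} [Group Γ]
    (G C : Subgroup Γ) : ℕ :=
  ∑ᶠ d : Quotient (pSubgroupSetoid p Γ), if G ⊔ d.out.1 = ⊤ then numDzOver p red C d.out.1 else 0

theorem reg_cut {Γ : Type} [Group Γ] (N H C : Subgroup Γ) :
    (fun x : H => cut (reg (F := F) p N) C x) = reg p ((N ⊓ C).subgroupOf H) := by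
  funext x
  unfold cut reg
  by_cases h1 : (x : Γ) ∈ C
  · rw [if_pos h1]
    simp [Subgroup.mem_subgroupOf, h1]
  · rw [if_neg h1, if_neg]
    rintro ⟨h2, _⟩
    exact h1 (Subgroup.mem_subgroupOf.1 h2).2

theorem closedE (hP : S_PUSH) :
    ClosedE p (fun (Γ : Type) [Group Γ] (z : Γ → F) => ∃ N : Subgroup Γ, z = reg p N) where
  sub := by
    rintro Γ _ _ _ ⟨N, rfl⟩ H C
    exact ⟨_, reg_cut N H C⟩
  quot := by
    rintro Γ _ _ _ hz ⟨N, rfl⟩ M _ hM
    exact ⟨_, hP p F Γ N M hM hz⟩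

/-- the normal subgroup generated by the `p`-regular elements -/
theorem reg_normal {Γ : Type} [Group Γ] (N : Subgroup Γ) (h : IsClassFun (reg (F := F) p N)) :
    ∃ C : Subgroup Γ, C.Normal ∧ C ≤ N ∧ (reg (F := F) p N) = reg p C := by
  let S : Set Γ := {x | x ∈ N ∧ ¬ p ∣ orderOf x}
  have hS : ∀ g x : Γ, x ∈ S → g * x * g⁻¹ ∈ S := by
    intro g x hx
    have h1 := h g x
    have h2 : reg (F := F) p N x = 1 := if_pos hx
    rw [h2] at h1
    by_contra h3
    have h4 : reg (F := F) p N (g * x * g⁻¹) = 0 := if_neg h3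
    rw [h4] at h1
    exact zero_ne_one h1
  have hle : Subgroup.closure S ≤ N := (Subgroup.closure_le N).2 fun x hx => hx.1
  refine ⟨Subgroup.closure S, ⟨fun n hn g => ?_⟩, hle, ?_⟩
  · have h1 : (Subgroup.closure S).map (MulAut.conj g).toMonoidHom ≤ Subgroup.closure S := by
      rw [MonoidHom.map_closure, Subgroup.closure_le]
      rintro _ ⟨x, hx, rfl⟩
      exact Subgroup.subset_closure (hS g x hx)
    exact h1 ⟨n, hn, rfl⟩
  · funext x
    unfold reg
    by_cases hx : ¬ p ∣ orderOf x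
    · by_cases hN : x ∈ N
      · rw [if_pos ⟨hN, hx⟩, if_pos ⟨Subgroup.subset_closure ⟨hN, hx⟩, hx⟩]
      · rw [if_neg fun h1 => hN h1.1, if_neg fun h1 => hN (hle h1.1)]
    · rw [if_neg fun h1 => hx h1.2, if_neg fun h1 => hx h1.2]

variable [IsAlgClosed F] (red : integralClosure ℤ ℂ →+* F)

theorem lsum_G {Γ : Type} [Group Γ] [Finite Γ] (G : Subgroup Γ) (z : Γ → F) (c : F) :
    Lsum G ⊤ z c = Nat.card Γ * (Lnum G ⊤ z c : ℤ) := by
  unfold Lsum
  rw [if_pos (sup_top_eq _), inf_top_eq, Subgroup.card_top]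

/-- the identity of the weighted sums and the equality of the numbers -/
theorem conv_pair (h1 : S_LEM) (h2 : S_NZ) {Γ : Type} [Group Γ] [Finite Γ] (G C : Subgroup Γ)
    [G.Normal] [C.Normal] (hCG : C ≤ G) (hp : IsPGroup p (Γ ⧸ G)) :
    (∀ c : F, c ≠ 0 → Lsum G ⊤ (reg p C) c = Wsum p red G ⊤ (reg p C) c) ↔
      numOver (F := F) G C = rhs p red G C := by
  obtain ⟨a1, a2, _⟩ := cva h1 h2 p F Γ G C hCG hp
  have hcl : IsClassFun (reg (F := F) p C) := fun g x => (reg_inZ p C).conj g x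
  have hcard : (Nat.card Γ : ℤ) ≠ 0 := by exact_mod_cast (Nat.card_pos (α := Γ)).ne'
  have hW : Wsum p red G ⊤ (reg p C) (nreg p C : F) = Nat.card Γ * (rhs p red G C : ℤ) := by
    rw [wcl p F red Γ G _ _ hcl]
    unfold rhs
    congr 2
    refine finsum_congr fun d => ?_
    rw [(cvb h1 h2 p F red Γ C d.out.1 d.out.2).1]
  have hW0 : ∀ c : F, c ≠ 0 → c ≠ (nreg p C : F) → Wsum p red G ⊤ (reg p C) c = 0 := by
    intro c hc hc'
    rw [wcl p F red Γ G _ _ hcl]
    have : (∑ᶠ d : Quotient (pSubgroupSetoid p Γ), if G ⊔ d.out.1 = ⊤ then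
        Nw p red (d.out.1.subgroupOf (Subgroup.normalizer (d.out.1 : Set Γ)))
          (fun x => reg (F := F) p C x) c else 0) = 0 := by
      refine finsum_eq_zero_of_forall_eq_zero fun d => ?_
      rw [(cvb h1 h2 p F red Γ C d.out.1 d.out.2).2.1 c hc hc', ite_self]
    rw [this, Nat.cast_zero, mul_zero]
  constructor
  · intro h
    have h3 := h _ (nreg_ne h2 C)
    rw [lsum_G, a1, hW] at h3
    exact_mod_cast mul_left_cancel₀ hcard h3
  · intro h c hc
    by_cases hc' : c = (nreg p C : F)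
    · rw [hc', lsum_G, a1, hW, h]
    · rw [lsum_G, a2 c hc hc', hW0 c hc hc', Nat.cast_zero, mul_zero]

theorem prin_top (H : Type) [Group H] : prin F (⊤ : Subgroup H) = up (prin F H) := by
  funext f
  exact (finsum_comp_equiv (Subgroup.topEquiv (G := H)).symm.toEquiv (f := f)).symm

theorem prin_block' (H : Type) [Group H] [Finite H] : IsBlock (prin F H) :=
  Pool.Agent.E8helper60.AW.prin_block

theorem prin_inv {Γ : Type} [Group Γ] [Finite Γ] (G : Subgroup Γ) [hG : G.Normal] :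
    IsInvBlock G (prin F G) := by
  intro g f f' _ h
  unfold prin
  symm
  refine finsum_eq_of_bijective (fun x : G => (⟨g * x * g⁻¹, hG.conj_mem x x.2 g⟩ : G)) ⟨?_, ?_⟩
    fun x => (h x _ rfl).symm
  · intro x y hxy
    have := congrArg Subtype.val hxy
    simpa using this
  · intro y
    refine ⟨⟨g⁻¹ * y * g, by simpa using hG.conj_mem y y.2 g⁻¹⟩, Subtype.ext ?_⟩
    simp [mul_assoc]

/-- `C = G`: the principal block -/
theorem rhs_eq (h1 : S_LEM) (h2 : S_NZ) {Γ : Type} [Group Γ] [Finite Γ] (G : Subgroup Γ)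
    [G.Normal] : rhs p red G G = thSum p red G (prin F G) := by
  unfold rhs thSum
  refine finsum_congr fun d => ?_
  rw [(cvb h1 h2 p F red Γ G d.out.1 d.out.2).2.2]
  by_cases h3 : G ⊔ d.out.1 = ⊤
  · by_cases h4 : InDefect p G (prin F G) d.out.1
    · rw [if_pos h3, if_pos ⟨h3, h4⟩]
    · rw [if_pos h3, if_neg fun h => h4 h.2]
      by_contra h5
      exact h4 (wdef' p F red Γ G (prin F G) (prin_block' G) (prin_inv G) d.out.1 d.out.2 h5)
  · rw [if_neg h3, if_neg fun h => h3 h.1]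

/-- from principal blocks to all blocks over principal blocks of normal subgroups -/
theorem main (h1 : S_LEM) (h2 : S_NZ) (h3 : S_PUSH) (h4 : S_SEM)
    (X : ∀ (G : Type) [Group G], Prop) (hX : Closed p X)
    (hext : ∀ (G : Type) [Group G] (M : Subgroup G) [M.Normal], IsPGroup p M → X (G ⧸ M) → X G)
    (h : ∀ (H : Type) [Group H] [Finite H], X H →
      numIrrBlock (prin F H) = numWt p red (prin F H))
    (Γ : Type) [Group Γ] [Finite Γ] (G C : Subgroup Γ) [G.Normal] [C.Normal] (hCG : C ≤ G)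
    (hG : X G) (hp : IsPGroup p (Γ ⧸ G)) : numOver (F := F) G C = rhs p red G C := by
  -- the principal block
  have s1 : ∀ (H : Type) [Group H] [Finite H], X H → ∀ c : F, c ≠ 0 →
      Lsum (⊤ : Subgroup H) ⊤ (reg p (⊤ : Subgroup H)) c =
        Wsum p red ⊤ ⊤ (reg p (⊤ : Subgroup H)) c := by
    intro H _ _ hH
    refine (conv_pair red h1 h2 (⊤ : Subgroup H) ⊤ le_rfl (pgroup_top p H)).2 ?_
    rw [rhs_eq red h1 h2, (cva h1 h2 p F H ⊤ ⊤ le_rfl (pgroup_top p H)).2.2, prin_top]
    have h5 := th_top (p := p) red (prin_block' (F := F) H)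
    rw [h5.1, h5.2]
    exact h H hH
  -- the base
  have s2 : ∀ (H : Type) [Group H] [Finite H], X H → ∀ c : F, c ≠ 0 → ∀ z : H → F,
      IsClassFun z → (∃ N : Subgroup H, z = reg p N) →
      Lsum (⊤ : Subgroup H) ⊤ z c = Wsum p red ⊤ ⊤ z c := by
    rintro H _ _ hH c hc _ hz ⟨N, rfl⟩
    obtain ⟨C, hC, _, hNC⟩ := reg_normal (p := p) (F := F) N hz
    rw [hNC]
    obtain ⟨Δ, _, _, π, hπ, hk, hcent⟩ := h4 p H C
    have hXΔ : X Δ := hext Δ π.ker hk
      (hX.iso _ _ hH ⟨(QuotientGroup.quotientKerEquivOfSurjective π hπ).symm⟩)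
    have h5 := s1 Δ hXΔ c hc
    have hcl : IsClassFun (reg (F := F) p (⊤ : Subgroup Δ)) :=
      fun g x => (reg_inZ p (⊤ : Subgroup Δ)).conj g x
    have h6 := trb p F red Δ H π _ c hπ hk hcl h5
    have h7 := h3 p F Δ ⊤ π.ker hk hcl
    have h8 : (fun y => ∑ᶠ x : Δ, if π x = y then reg (F := F) p (⊤ : Subgroup Δ) x else 0) =
        reg p C := by
      funext y
      obtain ⟨d, rfl⟩ := hπ y
      have h9 := congrFun h7 (d : Δ ⧸ π.ker)
      have h10 : push π.ker (reg (F := F) p (⊤ : Subgroup Δ)) (d : Δ ⧸ π.ker) =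
          ∑ᶠ x : Δ, if π x = π d then reg (F := F) p (⊤ : Subgroup Δ) x else 0 := by
        unfold push
        refine finsum_congr fun x => ?_
        have h11 : ((x : Δ ⧸ π.ker) = (d : Δ ⧸ π.ker)) ↔ π x = π d := by
          rw [QuotientGroup.eq, MonoidHom.mem_ker, map_mul, map_inv, inv_mul_eq_one]
        by_cases h12 : π x = π d
        · rw [if_pos h12, if_pos (h11.2 h12)]
        · rw [if_neg h12, if_neg fun h13 => h12 (h11.1 h13)]
      rw [← h10, h9]
      unfold reg
      have h11 : (d : Δ ⧸ π.ker) ∈ ((⊤ ⊓ Subgroup.centralizer (π.ker : Set Δ)).map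
          (QuotientGroup.mk' π.ker)) ↔ π d ∈ C := by
        rw [← hcent, top_inf_eq]
        constructor
        · rintro ⟨x, hx, hxd⟩
          refine ⟨x, hx, ?_⟩
          have h12 : (x : Δ ⧸ π.ker) = (d : Δ ⧸ π.ker) := hxd
          rw [QuotientGroup.eq, MonoidHom.mem_ker, map_mul, map_inv, inv_mul_eq_one] at h12
          exact h12
        · rintro ⟨x, hx, hxd⟩
          refine ⟨x, hx, ?_⟩
          change (x : Δ ⧸ π.ker) = (d : Δ ⧸ π.ker)
          rw [QuotientGroup.eq, MonoidHom.mem_ker, map_mul, map_inv, inv_mul_eq_one]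
          exact hxd
      have h12 : orderOf (d : Δ ⧸ π.ker) = orderOf (π d) := by
        have := orderOf_injective (QuotientGroup.quotientKerEquivOfSurjective π hπ).toMonoidHom
          (QuotientGroup.quotientKerEquivOfSurjective π hπ).injective (d : Δ ⧸ π.ker)
        exact this.symm
      rw [h12]
      simp only [h11]
    rw [h8] at h6
    exact h6
  refine (conv_pair red h1 h2 G C hCG hp).1 fun c hc => ?_
  exact induct' parts red X hX _ (closedE h3) c
    (fun H _ _ hH z hz hD => s2 H hH c hc z hz hD) (Nat.card Γ) Γ G le_rfl hG hp _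
    (inZ_le hCG (reg_inZ p C)) ⟨C, rfl⟩

end Pool.Agent.E8helper60.NP
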