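import Pool.Agent.E8helper60.NP.StmB

/-!
# The element of the `p`-regular elements and the principal block
-/

set_option autoImplicit false

open scoped Classical

noncomputable section

namespace Pool.Agent.E8helper60.NP

open Pool.Agent.Y63.NV Pool.Agent.E8helper60.AW
open Pool.Agent.Y63.AWC (IsIrreducibleCharacter pSubgroupSetoid)

section

variable {F Γ : Type} [Field F] [Group Γ]

theorem fs_sub {G : Subgroup Γ} {f : Γ → F} (hf : ∀ x, x ∉ G → f x = 0) :
    ∑ᶠ x : G, f x = ∑ᶠ x : Γ, f x := by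
  rw [finsum_subtype_eq_finsum_cond (fun x => x ∈ G)]
  refine finsum_congr fun x => ?_
  by_cases h : x ∈ G
  · simp [h]
  · simp [h, hf x h]

theorem inZ_le {C G : Subgroup Γ} (h : C ≤ G) {z : Γ → F} (hz : InZ C z) : InZ G z :=
  ⟨hz.conj, fun x hx => hz.supp x fun h1 => hx (h h1)⟩

theorem reg_inZ (p : ℕ) (C : Subgroup Γ) [hC : C.Normal] : InZ C (reg (F := F) p C) := by
  constructor
  · intro g x
    unfold reg
    have h1 : g * x * g⁻¹ ∈ C ↔ x ∈ C := by
      constructor
      · intro h
        have := hC.conj_mem _ h g⁻¹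
        simpa [mul_assoc] using this
      · exact fun h => hC.conj_mem x h g
    have h2 : orderOf (g * x * g⁻¹) = orderOf x := by
      have := orderOf_injective (MulAut.conj g).toMonoidHom (MulAut.conj g).injective x
      simpa using this
    rw [h2]
    simp only [h1]
  · intro x hx
    unfold reg
    rw [if_neg fun h => hx h.1]

theorem reg_sum (p : ℕ) [Finite Γ] (C : Subgroup Γ) :
    ∑ᶠ x : Γ, reg (F := F) p C x = (nreg p C : F) := by
  have : Fintype Γ := Fintype.ofFinite Γ
  rw [finsum_eq_sum_of_fintype]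
  unfold reg nreg
  rw [Finset.sum_boole, Nat.card_eq_fintype_card, Fintype.card_subtype]

/-- the functional of a block of `G` on `Z(F[C])^Γ` -/
theorem lam_of_block {G C : Subgroup Γ} (hCG : C ≤ G) {B : (G → F) → F} (hB : IsBlock B) :
    IsLam C (fun z : Γ → F => B (fun x : G => z x)) := by
  have hcl : ∀ f : Γ → F, InZ C f → IsClassFun (fun x : G => f x) := fun f hf g x => hf.conj g x
  refine ⟨fun f g hf hg => hB.add _ _ (hcl f hf) (hcl g hg),
    fun a f hf => hB.smul a _ (hcl f hf), ?_, fun f g hf hg => ?_⟩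
  · refine Eq.trans (congrArg B ?_) hB.one
    funext x
    by_cases hx : x = 1
    · subst hx
      simp
    · have : (x : Γ) ≠ 1 := fun h => hx (Subtype.ext h)
      simp [hx, this]
  · refine Eq.trans (congrArg B ?_) (hB.mul _ _ (hcl f hf) (hcl g hg))
    funext x
    unfold conv
    rw [← fs_sub (G := G) (f := fun y => f y * g (y⁻¹ * x))]
    · rfl
    · intro y hy
      rw [hf.supp y fun h => hy (hCG h), zero_mul]

/-- the functional of a block of `Γ` on `Z(F[C])^Γ` -/
theorem lam_of_block' {C : Subgroup Γ} {B : (Γ → F) → F} (hB : IsBlock B) :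
    IsLam C B :=
  ⟨fun f g hf hg => hB.add _ _ hf.conj hg.conj, fun a f hf => hB.smul a _ hf.conj, hB.one,
    fun f g hf hg => hB.mul _ _ hf.conj hg.conj⟩

end

section

variable {F : Type} [Field F] {p : ℕ} [Fact p.Prime] [CharP F p]

theorem nreg_ne (h2 : S_NZ) {Γ : Type} [Group Γ] [Finite Γ] (C : Subgroup Γ) :
    (nreg p C : F) ≠ 0 := by
  intro h
  exact h2 p Γ C ((CharP.cast_eq_zero_iff F p _).1 h)

/-- a homomorphism is the augmentation if and only if its value at the sum of the `p`-regular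
elements is not zero, and then it is the number of these elements -/
theorem lam_iff (h1 : S_LEM) (h2 : S_NZ) {Γ : Type} [Group Γ] [Finite Γ] (C : Subgroup Γ)
    [C.Normal] {b : (Γ → F) → F} (hb : IsLam C b) :
    ((∀ z : Γ → F, InZ C z → b z = ∑ᶠ x : Γ, z x) ∧ b (reg p C) = (nreg p C : F)) ∨
      (¬ (∀ z : Γ → F, InZ C z → b z = ∑ᶠ x : Γ, z x) ∧ b (reg p C) = 0) := by
  by_cases h : ∀ z : Γ → F, InZ C z → b z = ∑ᶠ x : Γ, z x
  · exact Or.inl ⟨h, by rw [h _ (reg_inZ p C), reg_sum]⟩
  · refine Or.inr ⟨h, ?_⟩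
    push Not at h
    exact h1 p F Γ C b hb h

theorem cva (h1 : S_LEM) (h2 : S_NZ) : S_CVA := by
  intro p _ F _ _ _ Γ _ _ G C _ _ hCG _
  have key : ∀ φ : G → F, IsIrrTrace φ → ∃ b : (Γ → F) → F,
      (∀ z : Γ → F, InZ C z → ∀ x : G, ∑ᶠ g : G, z g * φ (g * x) = b z * φ x) ∧
      (∃ x, φ x ≠ 0) ∧
      (((∀ z : Γ → F, InZ C z → b z = ∑ᶠ x : Γ, z x) ∧ b (reg p C) = (nreg p C : F)) ∨
      (¬ (∀ z : Γ → F, InZ C z → b z = ∑ᶠ x : Γ, z x) ∧ b (reg p C) = 0)) := by
    intro φ hφ
    obtain ⟨hne, B, hB, hact⟩ := schur0 F G φ hφ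
    refine ⟨fun z => B (fun x : G => z x), fun z hz x => hact _ (fun g x => hz.conj g x) x, hne, ?_⟩
    exact lam_iff h1 h2 C (lam_of_block hCG hB)
  refine ⟨?_, ?_, ?_⟩
  · unfold Lnum numOver
    refine Nat.card_congr (Equiv.subtypeEquivRight fun φ => ?_)
    refine and_congr_right fun hφ => and_congr_right fun _ => ?_
    obtain ⟨b, hb, ⟨x0, hx0⟩, hor⟩ := key φ hφ
    constructor
    · intro h
      have h3 : b (reg p C) = (nreg p C : F) :=
        mul_right_cancel₀ hx0 ((hb _ (reg_inZ p C) x0).symm.trans (h x0))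
      rcases hor with h4 | h4
      · intro z hz x
        rw [hb z hz, h4.1 z hz]
      · exact absurd (h3.symm.trans h4.2) (nreg_ne h2 C)
    · intro h x
      rw [h _ (reg_inZ p C), reg_sum]
  · intro c hc hc'
    unfold Lnum
    rw [Nat.card_eq_zero]
    left
    constructor
    rintro ⟨φ, hφ, _, h⟩
    obtain ⟨b, hb, ⟨x0, hx0⟩, hor⟩ := key φ hφ
    have h3 : b (reg p C) = c :=
      mul_right_cancel₀ hx0 ((hb _ (reg_inZ p C) x0).symm.trans (h x0))
    rcases hor with h4 | h4
    · exact hc' (h3.symm.trans h4.2)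
    · exact hc (h3.symm.trans h4.2)
  · unfold numOver numIBr
    refine Nat.card_congr (Equiv.subtypeEquivRight fun φ => ?_)
    refine and_congr_right fun hφ => and_congr_right fun _ => ?_
    constructor
    · intro h f hf x
      obtain ⟨⟨x0, hx0⟩, B, hB, hact⟩ := schur0 F G φ hφ
      have h3 := lam_iff (p := p) h1 h2 (⊤ : Subgroup G) (lam_of_block' (C := ⊤) hB)
      have h5 : B (reg p (⊤ : Subgroup G)) = (nreg p G : F) := by
        have h6 := h (reg p G) (reg_inZ p G) x0
        rw [reg_sum] at h6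
        have h7 : (fun x : G => reg (F := F) p G (x : Γ)) = reg p (⊤ : Subgroup G) := by
          funext x
          unfold reg
          simp
        have h8 := hact (fun x : G => reg p G (x : Γ)) (fun g x => (reg_inZ p G).conj g x) x0
        rw [← h7]
        exact mul_right_cancel₀ hx0 (h8.symm.trans h6)
      rcases h3 with h4 | h4
      · rw [hact f hf, h4.1 f ⟨hf, fun x hx => absurd (Subgroup.mem_top x) hx⟩]
        rfl
      · exact absurd (h5.symm.trans h4.2) (nreg_ne h2 G)
    · intro h z hz x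
      rw [← fs_sub hz.supp]
      exact h (fun x : G => z x) (fun g x => hz.conj g x) x

theorem cvb (h1 : S_LEM) (h2 : S_NZ) : S_CVB := by
  intro p _ F _ _ _ red Γ _ _ C Q _ hQ
  have key : ∀ χ : Subgroup.normalizer (Q : Set Γ) → ℂ,
      IsWt p (Q.subgroupOf (Subgroup.normalizer (Q : Set Γ))) χ →
      (((∀ z : Γ → F, InZ C z → centralValue red χ (fun x => z x) = ∑ᶠ x : Γ, z x) ∧
        centralValue red χ (fun x => reg p C x) = (nreg p C : F)) ∨
      (¬ (∀ z : Γ → F, InZ C z → centralValue red χ (fun x => z x) = ∑ᶠ x : Γ, z x) ∧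
        centralValue red χ (fun x => reg p C x) = 0)) := by
    intro χ hχ
    exact lam_iff h1 h2 C (lam_of_block' (C := C) (wblk' p F red Γ Q χ hQ hχ))
  refine ⟨?_, ?_, ?_⟩
  · unfold Nw numDzOver
    refine Nat.card_congr (Equiv.subtypeEquivRight fun χ => ?_)
    refine and_congr_right fun hχ => ?_
    constructor
    · intro h
      rcases key χ hχ with h4 | h4
      · exact h4.1
      · exact absurd (h.symm.trans h4.2) (nreg_ne h2 C)
    · intro h
      rw [h _ (reg_inZ p C), reg_sum]
  · intro c hc hc'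
    unfold Nw
    rw [Nat.card_eq_zero]
    left
    constructor
    rintro ⟨χ, hχ, h⟩
    rcases key χ hχ with h4 | h4
    · exact hc' (h.symm.trans h4.2)
    · exact hc (h.symm.trans h4.2)
  · unfold numDzOver numDz
    refine Nat.card_congr (Equiv.subtypeEquivRight fun χ => ?_)
    refine and_congr_right fun hχ => forall_congr' fun z => imp_congr_right fun hz => ?_
    unfold prin
    rw [fs_sub hz.supp]

end

end Pool.Agent.E8helper60.NP
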