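import Pool.Agent.E8helper60.NP.Asm

/-!
# Navarro's equality for principal blocks: the equivalences
-/

set_option autoImplicit false
set_option linter.unusedSectionVars false

open scoped Classical

noncomputable section

namespace Pool.Agent.E8helper60.NP

open Pool.Agent.Y63.NV
open Pool.Agent.E8helper60.AW (numWt thSum th_top prin_tfae pow_class' one_le_cardG card_wr)
open Pool.Agent.Y63.AWC (IsIrreducibleCharacter pSubgroupSetoid)

variable {F : Type} [Field F] {p : ℕ} [Fact p.Prime] [CharP F p] [IsAlgClosed F]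
  (red : integralClosure ℤ ℂ →+* F)

theorem top_pair (H : Type) [Group H] [Finite H] :
    numIBr (⊤ : Subgroup H) (prin F (⊤ : Subgroup H)) = numIrrBlock (prin F H) ∧
      thSum p red (⊤ : Subgroup H) (prin F (⊤ : Subgroup H)) = numWt p red (prin F H) := by
  rw [prin_top]
  exact th_top (p := p) red (prin_block' (F := F) H)

theorem fin_tfae (h1 : S_LEM) (h2 : S_NZ) (h3 : S_PUSH) (h4 : S_SEM) (C : Type) [Group C]
    [Fintype C] (hC : Nat.card C = p) (X : ∀ (G : Type) [Group G], Prop) (hX : Closed p X)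
    (hext : ∀ (G : Type) [Group G] (M : Subgroup G) [M.Normal], IsPGroup p M → X (G ⧸ M) → X G)
    (hwr : ∀ (G : Type) [Group G] [Finite G], X G → X (RegularWreathProduct G C))
    (m n₀ : ℕ) (hm : p ∣ m) :
    List.TFAE [
      ∀ (Γ : Type) [Group Γ] [Finite Γ] (G : Subgroup Γ) [G.Normal], X G → IsPGroup p (Γ ⧸ G) →
        numIBr G (prin F G) = thSum p red G (prin F G),
      ∀ (Γ : Type) [Group Γ] [Finite Γ] (G : Subgroup Γ) [G.Normal], X G → IsPGroup p (Γ ⧸ G) →
        n₀ ≤ Nat.card G → numIBr G (prin F G) ≡ thSum p red G (prin F G) [MOD m],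
      ∀ ε : ℝ, 0 < ε → ∃ c : ℝ, ∀ (Γ : Type) [Group Γ] [Finite Γ] (G : Subgroup Γ) [G.Normal],
        X G → IsPGroup p (Γ ⧸ G) →
        (numIBr G (prin F G) : ℝ) ≤ c * (Nat.card G : ℝ) ^ ε * thSum p red G (prin F G) ∧
        (thSum p red G (prin F G) : ℝ) ≤ c * (Nat.card G : ℝ) ^ ε * numIBr G (prin F G),
      ∀ (Γ : Type) [Group Γ] [Finite Γ] (G K : Subgroup Γ) [G.Normal] [K.Normal], K ≤ G → X G →
        IsPGroup p (Γ ⧸ G) → numOver (F := F) G K = rhs p red G K,
      ∀ (H : Type) [Group H] [Finite H], X H → numIrrBlock (prin F H) = numWt p red (prin F H),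
      ∀ (H : Type) [Group H] [Finite H], n₀ ≤ Nat.card H → X H →
        numIrrBlock (prin F (RegularWreathProduct H C)) ≡
          numWt p red (prin F (RegularWreathProduct H C)) [MOD m],
      ∀ ε : ℝ, 0 < ε → ∃ c : ℝ, ∀ (H : Type) [Group H] [Finite H], X H →
        (numIrrBlock (prin F H) : ℝ) ≤ c * (Nat.card H : ℝ) ^ ε * numWt p red (prin F H) ∧
        (numWt p red (prin F H) : ℝ) ≤ c * (Nat.card H : ℝ) ^ ε * numIrrBlock (prin F H)] := by
  have hp : p.Prime := Fact.out
  have hprin := prin_tfae (p := p) (F := F) red C hC m hm n₀ X hwr (pow_class' p p hp C hC X hX hwr)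
  tfae_have 5 → 4 := by
    intro h Γ _ _ G K _ _ hKG hG hpG
    exact main red h1 h2 h3 h4 X hX hext h Γ G K hKG hG hpG
  tfae_have 4 → 1 := by
    intro h Γ _ _ G _ hG hpG
    rw [← (cva h1 h2 p F Γ G G le_rfl hpG).2.2, ← rhs_eq red h1 h2]
    exact h Γ G G le_rfl hG hpG
  tfae_have 1 → 2 := by
    intro h Γ _ _ G _ hG hpG _
    rw [h Γ G hG hpG]
  tfae_have 1 → 3 := by
    intro h ε hε
    refine ⟨1, fun Γ _ _ G _ hG hpG => ?_⟩
    rw [h Γ G hG hpG]
    have h2 : (1 : ℝ) ≤ (Nat.card G : ℝ) ^ ε := by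
      refine Real.one_le_rpow ?_ hε.le
      exact_mod_cast one_le_cardG G
    rw [one_mul]
    exact ⟨le_mul_of_one_le_left (Nat.cast_nonneg _) h2,
      le_mul_of_one_le_left (Nat.cast_nonneg _) h2⟩
  tfae_have 2 → 6 := by
    intro h H _ _ hn hH
    have h5 := top_pair (p := p) (F := F) red (RegularWreathProduct H C)
    have h6 := h (RegularWreathProduct H C) ⊤ (hX.iso _ _ (hwr H hH) ⟨Subgroup.topEquiv.symm⟩)
      (pgroup_top p _) (by
        rw [Subgroup.card_top]
        exact hn.trans ((Nat.le_succ _).trans (card_wr p hp C hC H)))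
    rw [h5.1, h5.2] at h6
    exact h6
  tfae_have 3 → 7 := by
    intro h ε hε
    obtain ⟨c, hc⟩ := h ε hε
    refine ⟨c, fun H _ _ hH => ?_⟩
    have h5 := top_pair (p := p) (F := F) red H
    have h6 := hc H ⊤ (hX.iso _ _ hH ⟨Subgroup.topEquiv.symm⟩) (pgroup_top p _)
    rw [h5.1, h5.2, Subgroup.card_top] at h6
    exact h6
  tfae_have 6 → 5 := (hprin.out 1 0).1
  tfae_have 7 → 5 := (hprin.out 2 0).1
  tfae_finish

end Pool.Agent.E8helper60.NP
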