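import Pool.Agent.E8helper60.NP.Fin
import Pool.Agent.E8helper22.NP.Tup
import Pool.Agent.E8helper3.NP.Lem
import Pool.Agent.E8helper63.NP.Nz
import Pool.Agent.E8helper63.NP.Sem
import Pool.Agent.E8helper68.NP.Push

/-!
# Navarro's equality for principal blocks
-/

set_option autoImplicit false

open scoped Classical

noncomputable section

namespace Pool.Agent.E8helper60.NP

open Pool.Agent.Y63.NV
open Pool.Agent.E8helper60.AW (numWt thSum)

variable {F : Type} [Field F] {p : ℕ} [Fact p.Prime] [CharP F p] [IsAlgClosed F]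
  (red : integralClosure ℤ ℂ →+* F)

theorem main_tfae (C : Type) [Group C]
    [Fintype C] (hC : Nat.card C = p) (X : ∀ (G : Type) [Group G], Prop) (hX : Closed p X)
    (hext : ∀ (G : Type) [Group G] (M : Subgroup G) [M.Normal], IsPGroup p M → X (G ⧸ M) → X G)
    (hwr : ∀ (G : Type) [Group G] [Finite G], X G → X (RegularWreathProduct G C))
    (m n₀ : ℕ) (hm : p ∣ m) :
    List.TFAE [
      ∀ (Γ : Type) [Group Γ] [Finite Γ] (G : Subgroup Γ) [G.Normal], X G → IsPGroup p (Γ ⧸ G) →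
        numIBr G (prin F G) = thSum p red G (prin F G),
      ∀ (Γ : Type) [Group Γ] [Finite Γ] (G : Subgroup Γ) [G.Normal], X G → IsPGroup p (Γ ⧸ G) →
        n₀ ≤ Nat.card G → numIBr G (prin F G) ≡ thSum p red G (prin F G) [MOD m],
      ∀ ε : ℝ, 0 < ε → ∃ c : ℝ, ∀ (Γ : Type) [Group Γ] [Finite Γ] (G : Subgroup Γ) [G.Normal],
        X G → IsPGroup p (Γ ⧸ G) →
        (numIBr G (prin F G) : ℝ) ≤ c * (Nat.card G : ℝ) ^ ε * thSum p red G (prin F G) ∧
        (thSum p red G (prin F G) : ℝ) ≤ c * (Nat.card G : ℝ) ^ ε * numIBr G (prin F G),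
      ∀ (Γ : Type) [Group Γ] [Finite Γ] (G K : Subgroup Γ) [G.Normal] [K.Normal], K ≤ G → X G →
        IsPGroup p (Γ ⧸ G) → numOver (F := F) G K = rhs p red G K,
      ∀ (H : Type) [Group H] [Finite H], X H → numIrrBlock (prin F H) = numWt p red (prin F H),
      ∀ (H : Type) [Group H] [Finite H], n₀ ≤ Nat.card H → X H →
        numIrrBlock (prin F (RegularWreathProduct H C)) ≡
          numWt p red (prin F (RegularWreathProduct H C)) [MOD m],
      ∀ ε : ℝ, 0 < ε → ∃ c : ℝ, ∀ (H : Type) [Group H] [Finite H], X H →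
        (numIrrBlock (prin F H) : ℝ) ≤ c * (Nat.card H : ℝ) ^ ε * numWt p red (prin F H) ∧
        (numWt p red (prin F H) : ℝ) ≤ c * (Nat.card H : ℝ) ^ ε * numIrrBlock (prin F H)] :=
  fin_tfae red (Pool.Agent.E8helper3.NP.t_LEM Pool.Agent.E8helper22.NP.t_TUP)
    Pool.Agent.E8helper63.NP.t_NZ Pool.Agent.E8helper68.NP.t_PUSH Pool.Agent.E8helper63.NP.t_SEM
    C hC X hX hext hwr m n₀ hm

end Pool.Agent.E8helper60.NP
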