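import Pool.Agent.Y63.NV.Defs

/-!
# Project NP: Navarro's conjecture for principal blocks (MP_0c8ca5_al): statements of the pieces (first part)
-/

set_option autoImplicit false

open scoped Classical

noncomputable section

namespace Pool.Agent.E8helper60.NP

open Pool.Agent.Y63.NV
open Pool.Agent.Y63.AWC (IsIrreducibleCharacter pSubgroupSetoid)

/-- the indicator function of the set of the `p`-regular elements of the subgroup `N` -/
def reg (p : ℕ) {F Γ : Type} [Field F] [Group Γ] (N : Subgroup Γ) : Γ → F :=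
  fun x => if x ∈ N ∧ ¬ p ∣ orderOf x then 1 else 0

/-- the number of the `p`-regular elements of `N` -/
def nreg (p : ℕ) {Γ : Type} [Group Γ] (N : Subgroup Γ) : ℕ :=
  Nat.card {x : Γ // x ∈ N ∧ ¬ p ∣ orderOf x}

/-- the product in the integral group ring -/
def cv {G : Type} [Group G] (f g : G → ℤ) : G → ℤ := fun x => ∑ᶠ y : G, f y * g (y⁻¹ * x)

/-- the powers in the integral group ring -/
def cpow {G : Type} [Group G] (a : G → ℤ) : ℕ → G → ℤ
  | 0 => Pi.single 1 1
  | n + 1 => cv a (cpow a n)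

/-- NP1 (TUP): the coefficients of `a^(p^m)` at `p`-singular classes -/
def S_TUP : Prop := ∀ (p : ℕ) [Fact p.Prime] (G : Type) [Group G] [Finite G] (a : G → ℤ) (m : ℕ)
  (x : G), p ∣ orderOf x →
    (p : ℤ) ^ (m + 1 - (Nat.card G).factorization p) ∣
      ∑ᶠ k : G, if IsConj x k then cpow a (p ^ m) k else 0

/-- algebra homomorphisms from the centre `Z(F[C])^Γ` to `F` -/
structure IsLam {F Γ : Type} [Field F] [Group Γ] (C : Subgroup Γ) (b : (Γ → F) → F) : Prop where
  add : ∀ f g : Γ → F, InZ C f → InZ C g → b (f + g) = b f + b g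
  smul : ∀ (a : F) (f : Γ → F), InZ C f → b (a • f) = a * b f
  one : b (Pi.single 1 1) = 1
  mul : ∀ f g : Γ → F, InZ C f → InZ C g → b (conv f g) = b f * b g

/-- NP2 (LEM): a homomorphism which is not the augmentation vanishes at the sum of the `p`-regular
elements -/
def S_LEM : Prop := ∀ (p : ℕ) [Fact p.Prime] (F : Type) [Field F] [CharP F p] (Γ : Type) [Group Γ]
  [Finite Γ] (C : Subgroup Γ) [C.Normal] (b : (Γ → F) → F), IsLam C b →
    (∃ z : Γ → F, InZ C z ∧ b z ≠ ∑ᶠ x : Γ, z x) → b (reg p C) = 0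

/-- NP3 (NZ) -/
def S_NZ : Prop := ∀ (p : ℕ) [Fact p.Prime] (Γ : Type) [Group Γ] [Finite Γ] (C : Subgroup Γ),
  ¬ p ∣ nreg p C

/-- NP4 (PUSH) -/
def S_PUSH : Prop := ∀ (p : ℕ) [Fact p.Prime] (F : Type) [Field F] [CharP F p] (Γ : Type) [Group Γ]
  [Finite Γ] (N M : Subgroup Γ) [M.Normal], IsPGroup p M → IsClassFun (reg (F := F) p N) →
    push M (reg (F := F) p N) =
      reg p ((N ⊓ Subgroup.centralizer (M : Set Γ)).map (QuotientGroup.mk' M))

/-- NP5 (SEM): a cover of `H` by a `p`-group with the given centraliser -/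
def S_SEM : Prop := ∀ (p : ℕ) [Fact p.Prime] (H : Type) [Group H] [Finite H] (C : Subgroup H)
  [C.Normal], ∃ (Δ : Type) (_ : Group Δ) (_ : Finite Δ) (π : Δ →* H), Function.Surjective π ∧
    IsPGroup p π.ker ∧ (Subgroup.centralizer (π.ker : Set Δ)).map π = C

end Pool.Agent.E8helper60.NP
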