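import Pool.Agent.E8helper60.NP.StmA
import Pool.Agent.E8helper60.AW.Cls
import Pool.Agent.Y63.NV.PeL

/-!
# Project NP: Navarro's conjecture for principal blocks (MP_0c8ca5_al): statements of the pieces
(second part)
-/

set_option autoImplicit false

open scoped Classical

noncomputable section

namespace Pool.Agent.E8helper60.NP

open Pool.Agent.Y63.NV
open Pool.Agent.Y63.AWC (IsIrreducibleCharacter pSubgroupSetoid)

/-- NP6 (TRB): the identity of the weighted sums for quotients by `p`-groups -/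
def S_TRB : Prop := ∀ (p : ℕ) [Fact p.Prime] (F : Type) [Field F] [IsAlgClosed F] [CharP F p]
  (red : integralClosure ℤ ℂ →+* F) (Δ H : Type) [Group Δ] [Group H] [Finite Δ] [Finite H]
  (π : Δ →* H) (z : Δ → F) (c : F), Function.Surjective π → IsPGroup p π.ker → IsClassFun z →
    Lsum (⊤ : Subgroup Δ) ⊤ z c = Wsum p red (⊤ : Subgroup Δ) ⊤ z c →
    Lsum (⊤ : Subgroup H) ⊤ (fun y => ∑ᶠ x : Δ, if π x = y then z x else 0) c =
      Wsum p red (⊤ : Subgroup H) ⊤ (fun y => ∑ᶠ x : Δ, if π x = y then z x else 0) c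

/-- the number of the `Γ`-invariant irreducible characters of `G` over `F` in blocks which cover
the principal block of `C` -/
def numOver {F Γ : Type} [Field F] [Group Γ] (G C : Subgroup Γ) : ℕ :=
  Nat.card {φ : G → F // IsIrrTrace φ ∧ IsInvUnder ⊤ φ ∧
    ∀ z : Γ → F, InZ C z → ∀ x : G, ∑ᶠ g : G, z g * φ (g * x) = (∑ᶠ g : Γ, z g) * φ x}

/-- the number of the characters of defect zero of `N_Γ(Q)/Q` such that the induced block covers
the principal block of `C` -/
def numDzOver (p : ℕ) {F Γ : Type} [Field F] [Group Γ] (red : integralClosure ℤ ℂ →+* F)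
    (C Q : Subgroup Γ) : ℕ :=
  Nat.card {χ : Subgroup.normalizer (Q : Set Γ) → ℂ //
    IsWt p (Q.subgroupOf (Subgroup.normalizer (Q : Set Γ))) χ ∧
    ∀ z : Γ → F, InZ C z → centralValue red χ (fun x => z x) = ∑ᶠ g : Γ, z g}

/-- the augmentation map -/
def prin (F : Type) [Field F] (G : Type) [Group G] : (G → F) → F := fun f => ∑ᶠ g : G, f g

/-- NP8a (CVA): the characters -/
def S_CVA : Prop := ∀ (p : ℕ) [Fact p.Prime] (F : Type) [Field F] [IsAlgClosed F] [CharP F p]
  (Γ : Type) [Group Γ] [Finite Γ] (G C : Subgroup Γ) [G.Normal] [C.Normal], C ≤ G →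
    IsPGroup p (Γ ⧸ G) →
    Lnum G ⊤ (reg (F := F) p C) (nreg p C : F) = numOver (F := F) G C ∧
    (∀ c : F, c ≠ 0 → c ≠ (nreg p C : F) → Lnum G ⊤ (reg (F := F) p C) c = 0) ∧
    numOver (F := F) G G = numIBr G (prin F G)

/-- NP8b (CVB): the weights -/
def S_CVB : Prop := ∀ (p : ℕ) [Fact p.Prime] (F : Type) [Field F] [IsAlgClosed F] [CharP F p]
  (red : integralClosure ℤ ℂ →+* F) (Γ : Type) [Group Γ] [Finite Γ] (C Q : Subgroup Γ) [C.Normal],
    IsPGroup p Q →
    Nw p red (Q.subgroupOf (Subgroup.normalizer (Q : Set Γ))) (fun x => reg (F := F) p C x)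
      (nreg p C : F) = numDzOver p red C Q ∧
    (∀ c : F, c ≠ 0 → c ≠ (nreg p C : F) →
      Nw p red (Q.subgroupOf (Subgroup.normalizer (Q : Set Γ))) (fun x => reg (F := F) p C x) c =
        0) ∧
    numDzOver p red C Q = numDz p red C Q (prin F C)

/-- NP10 (WCL): sums over subgroups and over classes -/
def S_WCL : Prop := ∀ (p : ℕ) [Fact p.Prime] (F : Type) [Field F]
  (red : integralClosure ℤ ℂ →+* F) (Γ : Type) [Group Γ] [Finite Γ] (G : Subgroup Γ) [G.Normal]
  (z : Γ → F) (c : F), IsClassFun z →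
    Wsum p red G ⊤ z c = Nat.card Γ * ((∑ᶠ d : Quotient (pSubgroupSetoid p Γ),
      if G ⊔ d.out.1 = ⊤ then
        Nw p red (d.out.1.subgroupOf (Subgroup.normalizer (d.out.1 : Set Γ))) (fun x => z x) c
      else 0 : ℕ) : ℤ)

end Pool.Agent.E8helper60.NP
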